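import Pool.Agent.H17.ProxIrr

set_option autoImplicit false

namespace Pool.Agent.Results.MP_d4114f_an.Comp

open Pool.Agent.H17.PI

theorem result {G : Type} [Group G] [TopologicalSpace G] [IsTopologicalGroup G] [PolishSpace G]
    {E : Type} [AddCommGroup E] [Module ℝ E] [TopologicalSpace E] [T2Space E]
    [IsTopologicalAddGroup E] [ContinuousSMul ℝ E] [LocallyConvexSpace ℝ E]
    {F : Type} [AddCommGroup F] [Module ℝ F] [TopologicalSpace F] [T2Space F]
    [IsTopologicalAddGroup F] [ContinuousSMul ℝ F] [LocallyConvexSpace ℝ F]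
    {D : Type} [AddCommGroup D] [Module ℝ D] [TopologicalSpace D] [T2Space D]
    [IsTopologicalAddGroup D] [ContinuousSMul ℝ D] [LocallyConvexSpace ℝ D]
    (P : AFlow G E) (L : AFlow G F) (K : AFlow G D) (ψ : E → F) (φ : F → D)
    (eψ : IsExt P L ψ) (eφ : IsExt L K φ) (hψ : ProxIrr P L ψ) (hφ : ProxIrr L K φ) :
    ProxIrr P K (φ ∘ ψ) :=
  comp eψ eφ hψ hφ

end Pool.Agent.Results.MP_d4114f_an.Comp
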